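import Pool.Agent.H70.PT.Targets

/-!
Row GRE of the board bwp_modules.
-/

set_option autoImplicit false

open Pool.Agent.H70.PT

namespace Pool.Agent.H42.BW

theorem pf_GRE (ENT : T_ENT) : T_GRE := by
  obtain ⟨h0, -, -, -, hc, -, -, -⟩ := ENT
  intro t ht
  have hs : {b : ℝ | 1 / 2 ≤ b ∧ b ≤ 3 / 4 ∧ ka b ≤ t} = Set.Icc (1 / 2) (3 / 4) ∩ {b : ℝ | ka b ≤ t} := by
    ext b
    constructor
    · rintro ⟨a, b, c⟩
      exact ⟨⟨a, b⟩, c⟩
    · rintro ⟨⟨a, b⟩, c⟩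
      exact ⟨a, b, c⟩
  rw [hs]
  refine IsCompact.exists_isGreatest ?_ ⟨1 / 2, ⟨le_refl _, by norm_num⟩, ?_⟩
  · exact isCompact_Icc.inter_right (isClosed_le hc continuous_const)
  · show ka (1 / 2) ≤ t
    rw [h0]
    exact ht

end Pool.Agent.H42.BW
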